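import Pool.Agent.THS.StmtsL

/-!
THS, row GEO: inverse of a short function.
-/

namespace Pool.Agent.THS.H41

open scoped BigOperators

theorem geo_one {K : Type} [Field K] (v : AbsoluteValue K ℝ) (ε : ℝ) (hε : 0 ≤ ε) :
    Short v 1 ε (fun _ _ => (1 : K)) := by
  refine ⟨fun _ _ => 1, fun _ _ => 1, fun _ _ => by simp, fun _ _ => by simp, fun i j => ?_⟩
  simpa using hε

theorem geo_zero {K : Type} [Field K] (v : AbsoluteValue K ℝ) (ε : ℝ) (hε : 0 ≤ ε) :
    Short v 0 ε (fun _ _ => (0 : K)) := by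
  refine ⟨fun _ _ => 1, fun _ _ => 1, fun _ _ => by simp, fun _ _ => by simp, fun i j => ?_⟩
  simpa using hε

theorem geo_near {K : Type} [Field K] (v : AbsoluteValue K ℝ) (hv : IsNonarchimedean v) (ρ : ℝ)
    (hρ : ρ < 1) (y : K) (hy : v (y - 1) ≤ ρ) : v y = 1 := by
  apply le_antisymm
  · have e : y = (y - 1) + 1 := by ring
    rw [e]
    refine (hv _ _).trans (max_le (hy.trans hρ.le) ?_)
    simp
  · by_contra hcon
    push Not at hcon
    have e : (1 : K) = y + -(y - 1) := by ring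
    have h1 : v (1 : K) ≤ max (v y) (v (-(y - 1))) := by
      conv_lhs => rw [e]
      exact hv _ _
    rw [v.map_neg, map_one] at h1
    exact absurd h1 (not_le.mpr (max_lt hcon (hy.trans_lt hρ)))

theorem geo (hs : ShmStatement) : GeoStatement := by
  intro c L
  refine ⟨∑ s ∈ Finset.range L, (1 + c) ^ s, ?_⟩
  intro K _ v ρ e hv hρ0 hρ he hsh
  obtain ⟨-, s2, s3, s4, -⟩ := hs K v hv
  have hε : 0 ≤ ρ ^ L := pow_nonneg hρ0.le _
  have hε1 : ρ ^ L ≤ 1 := pow_le_one₀ hρ0.le hρ.le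
  have hd1 : ∀ k, v (1 - e k) ≤ ρ := by
    intro k
    rw [v.map_sub]
    exact he k
  have hd : Short v (1 + c) (ρ ^ L) (fun i j => 1 - e (i + j)) := by
    have h1 := s3 c (ρ ^ L) (-1) _ hε (by simp) hsh
    have h2 := s2 1 c (ρ ^ L) _ _ (geo_one v (ρ ^ L) hε) h1
    have e1 : (fun i j : ℤ => (1 : K) + -1 * e (i + j)) = fun i j => 1 - e (i + j) := by
      funext i j; ring
    rw [e1] at h2
    exact h2
  have hpow : ∀ s : ℕ, Short v ((1 + c) ^ s) (ρ ^ L) (fun i j => (1 - e (i + j)) ^ s) := by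
    intro s
    induction s with
    | zero => simpa using geo_one v (ρ ^ L) hε
    | succ s ih =>
      have h1 := s4 ((1 + c) ^ s) (1 + c) (ρ ^ L) 1 _ _ hε hε1 le_rfl
        (fun i j => by
          rw [map_pow]
          exact pow_le_one₀ (v.nonneg _) ((hd1 _).trans hρ.le))
        (fun i j => (hd1 _).trans hρ.le) ih hd
      rw [mul_one] at h1
      simpa [pow_succ] using h1
  have hsum : ∀ n : ℕ, Short v (∑ s ∈ Finset.range n, (1 + c) ^ s) (ρ ^ L)
      (fun i j => ∑ s ∈ Finset.range n, (1 - e (i + j)) ^ s) := by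
    intro n
    induction n with
    | zero => simpa using geo_zero v (ρ ^ L) hε
    | succ n ih =>
      have h1 := s2 _ _ (ρ ^ L) _ _ ih (hpow n)
      simpa [Finset.sum_range_succ] using h1
  obtain ⟨A, B, hA, hB, hAB⟩ := hsum L
  refine ⟨A, B, hA, hB, fun i j => ?_⟩
  have hve : v (e (i + j)) = 1 := geo_near v hv ρ hρ _ (he _)
  have hne : e (i + j) ≠ 0 := by
    intro h0
    rw [h0, map_zero] at hve
    exact zero_ne_one hve
  have key : (e (i + j))⁻¹ - ∑ s ∈ Finset.range L, (1 - e (i + j)) ^ s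
      = (1 - e (i + j)) ^ L * (e (i + j))⁻¹ := by
    have h1 := geom_sum_mul_neg (1 - e (i + j)) L
    rw [sub_sub_cancel] at h1
    have h2 : ∑ s ∈ Finset.range L, (1 - e (i + j)) ^ s
        = (1 - (1 - e (i + j)) ^ L) * (e (i + j))⁻¹ := by
      rw [← h1, mul_assoc, mul_inv_cancel₀ hne, mul_one]
    rw [h2]; ring
  have e2 : (e (i + j))⁻¹ - ∑ s, A s i * B s j
      = ((e (i + j))⁻¹ - ∑ s ∈ Finset.range L, (1 - e (i + j)) ^ s)
        + (∑ s ∈ Finset.range L, (1 - e (i + j)) ^ s - ∑ s, A s i * B s j) := by ring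
  rw [e2]
  refine (hv _ _).trans (max_le ?_ (hAB i j))
  rw [key, map_mul, map_pow, map_inv₀, hve, inv_one, mul_one]
  exact pow_le_pow_left₀ (v.nonneg _) (hd1 _) L

end Pool.Agent.THS.H41
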