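import Pool.Agent.THS.StmtsN

/-!
THS, row HXK: height of the points `x k`.
-/

namespace Pool.Agent.THS.H41

open scoped BigOperators

theorem hxk_sgn_comm {g : ℕ} (b c : Fin g → ZMod 2) : sgn b c = sgn c b := by
  unfold sgn
  congr 1
  exact Finset.sum_congr rfl fun i _ => mul_comm _ _

theorem hxk_sgn_abs {K : Type} [Field K] (v : AbsoluteValue K ℝ) {g : ℕ} (b c : Fin g → ZMod 2) :
    v ((sgn b c : ℤ) : K) = 1 := by
  unfold sgn
  rcases neg_one_pow_eq_or ℤ (∑ i, (b i).val * (c i).val) with h | h <;> rw [h] <;> simp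

theorem hxk_le_nv {K ι : Type} [Field K] [Finite ι] (v : AbsoluteValue K ℝ) (x : ι → K) (i : ι) :
    v (x i) ≤ nv v x := by
  unfold nv
  exact le_ciSup (f := fun i => v (x i)) (Set.finite_range _).bddAbove i

theorem hxk_nv_nonneg {K ι : Type} [Field K] (v : AbsoluteValue K ℝ) (x : ι → K) :
    0 ≤ nv v x := Real.iSup_nonneg fun i => v.nonneg _

theorem hxk_exists {K ι : Type} [Field K] [Finite ι] [Nonempty ι] (v : AbsoluteValue K ℝ)
    (x : ι → K) : ∃ i, v (x i) = nv v x := exists_eq_ciSup_of_finite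

theorem hxk_key (ho : OrtStatement) (K : Type) [Field K] (g N : ℕ) (α β : K)
    (T : ℤ → (Fin g → ZMod 2) → K)
    (x : ℤ → (Fin g → ZMod 2) × (Fin g → ZMod 2) → K) (hS : NSeq K g N α β T x) (k : ℤ) :
    ∃ l : K, l ≠ 0 ∧ ∀ a b, ∑ d, ((sgn b (a + d) : ℤ) : K) * (T (2 * k) (a + d) * T 0 d)
      = l * ((2 : K) ^ g * (x k (a, b) * x k (a, b))) := by
  obtain ⟨l, hl, hrel⟩ := hS.rel k k
  refine ⟨l, hl, fun a b => ?_⟩
  have h1 : ∀ d, T (2 * k) (a + d) * T 0 d
      = l * ∑ b', ((sgn b' (a + d) : ℤ) : K) * (x k (a, b') * x k (a, b')) := by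
    intro d
    have := hrel a d
    rw [← two_mul, sub_self] at this
    exact this
  calc ∑ d, ((sgn b (a + d) : ℤ) : K) * (T (2 * k) (a + d) * T 0 d)
      = ∑ d, ∑ b', (((sgn b (a + d) * sgn b' (a + d) : ℤ)) : K) *
          (l * (x k (a, b') * x k (a, b'))) := by
        refine Finset.sum_congr rfl fun d _ => ?_
        rw [h1 d, Finset.mul_sum, Finset.mul_sum]
        refine Finset.sum_congr rfl fun b' _ => ?_
        push_cast
        ring
    _ = ∑ b', (((∑ d, sgn b (a + d) * sgn b' (a + d) : ℤ)) : K) *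
          (l * (x k (a, b') * x k (a, b'))) := by
        rw [Finset.sum_comm]
        refine Finset.sum_congr rfl fun b' _ => ?_
        rw [← Finset.sum_mul]
        push_cast
        rfl
    _ = ∑ b', (((if b = b' then (2 : ℤ) ^ g else 0 : ℤ)) : K) *
          (l * (x k (a, b') * x k (a, b'))) := by
        refine Finset.sum_congr rfl fun b' _ => ?_
        congr 2
        rw [← ho g b b']
        refine Fintype.sum_equiv (Equiv.addLeft a) _ _ fun d => ?_
        simp only [Equiv.coe_addLeft]
        rw [hxk_sgn_comm b, hxk_sgn_comm b']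
    _ = l * ((2 : K) ^ g * (x k (a, b) * x k (a, b))) := by
        rw [Finset.sum_eq_single b]
        · rw [if_pos rfl]
          push_cast
          ring
        · intro b' _ hb'
          rw [if_neg (Ne.symm hb')]
          simp
        · intro h
          exact absurd (Finset.mem_univ _) h

theorem hxk_na {K : Type} [Field K] [NumberField K] (v : NumberField.FinitePlace K) :
    IsNonarchimedean v.val := fun x y => v.add_le x y

theorem hxk_sum_le {K ι : Type} [Field K] [Fintype ι] [Nonempty ι] (v : AbsoluteValue K ℝ)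
    (hv : IsNonarchimedean v) (f : ι → K) (M : ℝ) (hf : ∀ i, v (f i) ≤ M) :
    v (∑ i, f i) ≤ M := by
  refine (hv.apply_sum_le_sup Finset.univ_nonempty).trans ?_
  exact Finset.sup'_le _ _ fun i _ => hf i

theorem hxk (h1 : HcpStatement) (h2 : OrtStatement) : HxkStatement := by
  intro K _ _ g N α β T x hS k
  obtain ⟨l, hl, key⟩ := hxk_key h2 K g N α β T x hS k
  have hT2 := hS.T0 (2 * k)
  have hT0 := hS.T0 0
  have hx := hS.x0 k
  have hlb : ∀ (v : AbsoluteValue K ℝ), 0 < v l := fun v => v.pos hl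
  have hfin : ∀ (L P R V : ℝ), 0 < L → L * (P * (V * V)) ≤ R → P * (V * V) ≤ L⁻¹ * R := by
    intro L P R V hL h
    rw [inv_mul_eq_div, le_div_iff₀ hL, mul_comm]
    exact h
  have := h1 K ((Fin g → ZMod 2) × (Fin g → ZMod 2)) (Fin g → ZMod 2) 2 2 1 g 1 l⁻¹
    ![x k, x k] ![T (2 * k), T 0] zero_le_one (inv_ne_zero hl)
    (by intro i; fin_cases i <;> simpa using hx)
    (by intro j; fin_cases j
        · simpa using hT2
        · simpa using hT0)
    (by
      intro v
      simp only [Fin.prod_univ_two, Matrix.cons_val_zero, Matrix.cons_val_one, one_mul, pow_one]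
      obtain ⟨⟨a, b⟩, hab⟩ := hxk_exists v.val (x k)
      have e1 := key a b
      have e2 : v.val (l * ((2 : K) ^ g * (x k (a, b) * x k (a, b))))
          ≤ (2 : ℝ) ^ g * (nv v.val (T (2 * k)) * nv v.val (T 0)) := by
        rw [← e1]
        refine (v.val.sum_le _ _).trans ?_
        have e3 : ∀ d ∈ (Finset.univ : Finset (Fin g → ZMod 2)),
            v.val (((sgn b (a + d) : ℤ) : K) * (T (2 * k) (a + d) * T 0 d))
            ≤ nv v.val (T (2 * k)) * nv v.val (T 0) := by
          intro d _
          rw [map_mul, map_mul, hxk_sgn_abs, one_mul]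
          exact mul_le_mul (hxk_le_nv _ _ _) (hxk_le_nv _ _ _) (v.val.nonneg _)
            (hxk_nv_nonneg _ _)
        refine (Finset.sum_le_card_nsmul _ _ _ e3).trans ?_
        rw [nsmul_eq_mul]
        simp
      rw [map_mul, map_mul, map_mul, map_pow, hab] at e2
      have e4 : v.val (2 : K) = 2 := by
        have := v.map_natCast 2
        exact_mod_cast this
      rw [e4] at e2
      have e5 : v.val l * (1 * (nv v.val (x k) * nv v.val (x k)))
          ≤ nv v.val (T (2 * k)) * nv v.val (T 0) := by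
        have h2g : (0 : ℝ) < 2 ^ g := by positivity
        refine le_of_mul_le_mul_left ?_ h2g
        calc (2 : ℝ) ^ g * (v.val l * (1 * (nv v.val (x k) * nv v.val (x k))))
            = v.val l * (2 ^ g * (nv v.val (x k) * nv v.val (x k))) := by ring
          _ ≤ _ := e2
      have e6 := hfin _ _ _ _ (hlb v.val) e5
      have e7 : v l⁻¹ = (v.val l)⁻¹ := map_inv₀ v.val l
      rw [e7]
      rw [one_mul] at e6
      exact e6)
    (by
      intro v
      simp only [Fin.prod_univ_two, Matrix.cons_val_zero, Matrix.cons_val_one, pow_one]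
      obtain ⟨⟨a, b⟩, hab⟩ := hxk_exists v.val (x k)
      have e1 := key a b
      have e2 : v.val (l * ((2 : K) ^ g * (x k (a, b) * x k (a, b))))
          ≤ nv v.val (T (2 * k)) * nv v.val (T 0) := by
        rw [← e1]
        refine hxk_sum_le v.val (hxk_na v) _ _ fun d => ?_
        rw [map_mul, map_mul, hxk_sgn_abs, one_mul]
        exact mul_le_mul (hxk_le_nv _ _ _) (hxk_le_nv _ _ _) (v.val.nonneg _)
          (hxk_nv_nonneg _ _)
      rw [map_mul, map_mul, map_mul, map_pow, hab] at e2
      have e6 := hfin _ _ _ _ (hlb v.val) e2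
      have e7 : v l⁻¹ = (v.val l)⁻¹ := map_inv₀ v.val l
      rw [e7]
      exact e6)
  simp only [Fin.prod_univ_two, Matrix.cons_val_zero, Matrix.cons_val_one, one_mul] at this
  rw [pow_mul, sq]
  exact this

end Pool.Agent.THS.H41
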