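import Pool.Agent.Helper41_THS.GEO

/-!
THS, row LCF: proof of the local lemma.
-/

namespace Pool.Agent.THS.H41

open scoped BigOperators

theorem lcf_prod (hs : ShmStatement) {K : Type} [Field K] (v : AbsoluteValue K ℝ)
    (hv : IsNonarchimedean v) (ε : ℝ) (hε : 0 ≤ ε) (hε1 : ε ≤ 1) (C : ℕ) :
    ∀ (n : ℕ) (F : Fin n → ℤ → ℤ → K), (∀ l i j, v (F l i j) ≤ 1) →
      (∀ l, Short v C ε (F l)) → Short v (C ^ n) ε (fun i j => ∏ l, F l i j) := by
  obtain ⟨-, s2, s3, s4, -⟩ := hs K v hv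
  intro n
  induction n with
  | zero =>
    intro F _ _
    simpa using geo_one v ε hε
  | succ n ih =>
    intro F h1 h2
    have h3 := ih (fun l => F l.succ) (fun l => h1 _) (fun l => h2 _)
    have h4 := s4 C (C ^ n) ε 1 (F 0) (fun i j => ∏ l : Fin n, F l.succ i j) hε hε1 le_rfl
      (h1 0) (fun i j => by
        rw [map_prod]
        exact Finset.prod_le_one (fun _ _ => v.nonneg _) (fun l _ => h1 _ _ _)) (h2 0) h3
    rw [mul_one] at h4
    have e1 : (fun i j => ∏ l, F l i j) = fun i j => F 0 i j * ∏ l : Fin n, F l.succ i j := by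
      funext i j
      exact Fin.prod_univ_succ _
    rw [e1, pow_succ']
    exact h4

theorem lcf_exact {K : Type} [Field K] (v : AbsoluteValue K ℝ) (ε : ℝ) (hε : 0 ≤ ε) (c : ℕ)
    (F : ℤ → ℤ → K) (h : Short v c 0 F) : Short v c ε F := by
  obtain ⟨A, B, hA, hB, hAB⟩ := h
  exact ⟨A, B, hA, hB, fun i j => (hAB i j).trans hε⟩

/-- Powers of a unit near 1. -/
theorem lcf_pow {K : Type} [Field K] (v : AbsoluteValue K ℝ) (hv : IsNonarchimedean v) (ρ : ℝ)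
    (hρ0 : 0 < ρ) (hρ : ρ < 1) (y : K) (hy : v (y - 1) ≤ ρ) (m : ℕ) : v (y ^ m - 1) ≤ ρ := by
  have h1 : v y = 1 := geo_near v hv ρ hρ y hy
  induction m with
  | zero => simpa using hρ0.le
  | succ m ih =>
    have e : y ^ (m + 1) - 1 = y * (y ^ m - 1) + (y - 1) := by ring
    rw [e]
    refine (hv _ _).trans (max_le ?_ hy)
    rw [map_mul, h1, one_mul]
    exact ih

theorem lcf (hnra : NraStatement) (hnrb : NrbStatement) (hles : LesStatement)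
    (hgeo : GeoStatement) (hs : ShmStatement) : LcfStatement := by
  intro g L
  obtain ⟨c1, hc1⟩ := hles (2 ^ g) L
  obtain ⟨c2, hc2⟩ := hgeo c1 L
  obtain ⟨c3, hc3⟩ := hles 1 L
  refine ⟨c3 * (2 ^ g * c2) ^ 5, ?_⟩
  intro K _ v ρ N α β T x u a hv hv2 hρ0 hρ hdisc hT hpc hu
  obtain ⟨o, κ, hκ, hTo, hvT, hw1, hwo, hϖ⟩ := hnra K v ρ g N α β T x hv hv2 hρ0 hρ hdisc hT hpc
  have hnrb' := hnrb K v ρ g N α β T x o κ hv hv2 hρ0 hρ hdisc hT hκ hTo hw1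
  obtain ⟨s1, s2, s3, s4, s5⟩ := hs K v hv
  have hε : 0 ≤ ρ ^ L := pow_nonneg hρ0.le _
  have hε1 : ρ ^ L ≤ 1 := pow_le_one₀ hρ0.le hρ.le
  have hvo : ∀ k, v (wn T o κ o k) = 1 := fun k => geo_near v hv ρ hρ _ (hwo k)
  have hno : ∀ k, wn T o κ o k ≠ 0 := by
    intro k h0
    have := hvo k
    rw [h0, map_zero] at this
    exact zero_ne_one this
  -- (a)
  have ha1 := hc1 K v ρ (fun k => wn T o κ o k) hv hv2 hρ0 hρ hwo (hnrb' o)
  have ha2 := hc2 K v ρ (fun k => wn T o κ o k) hv hρ0 hρ hwo ha1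
  have ha3 : Short v c2 (ρ ^ L) (fun i j => (wn T o κ o (i - j))⁻¹) := by
    have := s5 c2 (ρ ^ L) _ (fun i => i) (fun j => -j) ha2
    simpa [sub_eq_add_neg] using this
  -- (b)
  have hb : ∀ b, Short v (2 ^ g * c2) (ρ ^ L) (fun i j => wn T o κ b (i + j)) := by
    intro b
    have h1 := lcf_exact v (ρ ^ L) hε _ _ (hnrb' b)
    have h2 := s4 (2 ^ g) c2 (ρ ^ L) 1 _ _ hε hε1 le_rfl
      (fun i j => by
        rw [map_mul]
        exact mul_le_one₀ (hw1 _ _) (v.nonneg _) (hw1 _ _))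
      (fun i j => by rw [map_inv₀, hvo, inv_one]) h1 ha3
    rw [mul_one] at h2
    have e1 : (fun i j => wn T o κ b (i + j) * wn T o κ o (i - j) * (wn T o κ o (i - j))⁻¹)
        = fun i j => wn T o κ b (i + j) := by
      funext i j
      rw [mul_assoc, mul_inv_cancel₀ (hno _), mul_one]
    rw [e1] at h2
    exact h2
  -- (c)
  set ϖ : K := κ ^ (2 * N) / β with hϖdef
  have hϖ0 : ϖ ≠ 0 := div_ne_zero (pow_ne_zero _ hκ) hT.hβ
  have hvϖ : v ϖ = 1 := geo_near v hv ρ hρ _ hϖ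
  have hnat : ∀ k : ℤ, ∃ n : ℕ, k ^ 2 = (n : ℤ) := fun k => Int.eq_ofNat_of_zero_le (sq_nonneg k)
  have he1 : ∀ k : ℤ, v (ϖ ^ (k ^ 2) - 1) ≤ ρ := by
    intro k
    obtain ⟨n, hn⟩ := hnat k
    rw [hn, zpow_natCast]
    exact lcf_pow v hv ρ hρ0 hρ ϖ hϖ n
  have hve : ∀ k : ℤ, v (ϖ ^ (k ^ 2)) = 1 := fun k => geo_near v hv ρ hρ _ (he1 k)
  have hc : Short v c3 (ρ ^ L) (fun i j => ϖ ^ ((i + j) ^ 2)) := by
    refine hc3 K v ρ (fun k => ϖ ^ (k ^ 2)) hv hv2 hρ0 hρ he1 ?_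
    refine ⟨fun _ i => ϖ ^ (2 * i ^ 2), fun _ j => ϖ ^ (2 * j ^ 2), fun _ i => ?_, fun _ j => ?_,
      fun i j => ?_⟩
    · show v (ϖ ^ (2 * i ^ 2)) ≤ 1
      rw [mul_comm, zpow_mul, map_zpow₀, hve, one_zpow]
    · show v (ϖ ^ (2 * j ^ 2)) ≤ 1
      rw [mul_comm, zpow_mul, map_zpow₀, hve, one_zpow]
    · show v (ϖ ^ ((i + j) ^ 2) * ϖ ^ ((i - j) ^ 2)
        - ∑ _s : Fin 1, ϖ ^ (2 * i ^ 2) * ϖ ^ (2 * j ^ 2)) ≤ 0
      rw [Fin.sum_univ_one, ← zpow_add₀ hϖ0, ← zpow_add₀ hϖ0]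
      have e : (i + j) ^ 2 + (i - j) ^ 2 = 2 * i ^ 2 + 2 * j ^ 2 := by ring
      rw [e, sub_self, map_zero]
  -- (d)
  have hd : ∀ l, Short v (2 ^ g * c2) (ρ ^ L) (fun i j => wn T o κ (a l) (u l * (i + j))) := by
    intro l
    have := s5 (2 ^ g * c2) (ρ ^ L) _ (fun i => u l * i) (fun j => u l * j) (hb (a l))
    simpa [mul_add] using this
  -- (e)
  have hprod := lcf_prod hs v hv (ρ ^ L) hε hε1 (2 ^ g * c2) 5
    (fun l i j => wn T o κ (a l) (u l * (i + j))) (fun l i j => hw1 _ _) hd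
  have htot := s4 c3 ((2 ^ g * c2) ^ 5) (ρ ^ L) 1 _ _ hε hε1 le_rfl
    (fun i j => (hve _).le) (fun i j => by
      rw [map_prod]
      exact Finset.prod_le_one (fun _ _ => v.nonneg _) (fun l _ => hw1 _ _)) hc hprod
  rw [mul_one] at htot
  obtain ⟨A, B, hA, hB, hAB⟩ := htot
  have hkey : ∀ m : ℤ, ff β T u a m
      = (T 0 o) ^ 5 * (ϖ ^ (m ^ 2) * ∏ l, wn T o κ (a l) (u l * m)) := by
    intro m
    have h1 : ∀ l, T (u l * m) (a l) = wn T o κ (a l) (u l * m) * (T 0 o * κ ^ ((u l * m) ^ 2)) := by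
      intro l
      unfold wn
      rw [div_mul_cancel₀]
      exact mul_ne_zero hTo (zpow_ne_zero _ hκ)
    unfold ff
    rw [Finset.prod_congr rfl (fun l _ => h1 l), Finset.prod_mul_distrib, Finset.prod_mul_distrib,
      Finset.prod_const, Finset.card_univ, Fintype.card_fin]
    have h2 : ∏ l, κ ^ ((u l * m : ℤ) ^ 2) = (κ ^ (2 * N)) ^ (m ^ 2) := by
      have h3 : ∀ (S : Finset (Fin 5)), ∏ l ∈ S, κ ^ ((u l * m : ℤ) ^ 2)
          = κ ^ (∑ l ∈ S, (u l * m : ℤ) ^ 2) := by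
        intro S
        induction S using Finset.induction_on with
        | empty => simp
        | insert l S hl ih => rw [Finset.prod_insert hl, Finset.sum_insert hl, zpow_add₀ hκ, ih]
      rw [h3]
      have h4 : ∑ l, (u l * m : ℤ) ^ 2 = ((2 * N : ℕ) : ℤ) * m ^ 2 := by
        rw [← hu]
        push_cast
        rw [Finset.sum_mul]
        exact Finset.sum_congr rfl fun l _ => by ring
      rw [h4, zpow_mul, zpow_natCast]
    rw [h2, hϖdef, div_zpow, zpow_neg]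
    field_simp
  refine ⟨(T 0 o) ^ 5, A, B, by rw [map_pow, hvT], hA, hB, fun i j => ?_⟩
  rw [hkey, ← mul_sub, map_mul, map_pow, hvT, mul_comm]
  exact mul_le_mul_of_nonneg_right (hAB i j) (pow_nonneg (by rw [← hvT]; exact v.nonneg _) 5)

end Pool.Agent.THS.H41
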