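import Pool.Agent.THS.StmtsN

/-!
THS, row PRB: maximum of a quasi-periodic function.
-/

namespace Pool.Agent.THS.H41

open scoped BigOperators

theorem prb : PrbStatement := by
  intro N F a b C hN ha hb hC hF hab hper hdup k
  have hb0 : b ≠ 0 := hb.ne'
  set G : ℤ → ℝ := fun k => F k ^ (2 * N) * (b ^ (k ^ 2))⁻¹ with hG
  have Gpos : ∀ k, 0 < G k := fun k => mul_pos (pow_pos (hF k) _) (inv_pos.mpr (zpow_pos hb _))
  have hGper : Function.Periodic G (N : ℤ) := by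
    intro k
    simp only [hG]
    rw [hper k]
    have e1 : (k + (N : ℤ)) ^ 2 = k ^ 2 + k * ((2 * N : ℕ) : ℤ) + ((N * N : ℕ) : ℤ) := by
      push_cast; ring
    have h1 : (a * b ^ k * F k) ^ (2 * N) = a ^ (2 * N) * b ^ (k * ((2 * N : ℕ) : ℤ)) * F k ^ (2 * N) := by
      rw [mul_pow, mul_pow, zpow_mul, zpow_natCast]
    have h2 : a ^ (2 * N) = b ^ ((N * N : ℕ) : ℤ) := by
      rw [pow_mul, hab, ← pow_mul, zpow_natCast]
    have p1 : b ^ (k ^ 2) ≠ 0 := zpow_ne_zero _ hb0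
    have p2 : b ^ (k * ((2 * N : ℕ) : ℤ)) ≠ 0 := zpow_ne_zero _ hb0
    have p3 : b ^ ((N * N : ℕ) : ℤ) ≠ 0 := zpow_ne_zero _ hb0
    rw [e1, zpow_add₀ hb0, zpow_add₀ hb0, h1, h2]
    generalize b ^ (k ^ 2) = P at *
    generalize b ^ (k * ((2 * N : ℕ) : ℤ)) = Q at *
    generalize b ^ ((N * N : ℕ) : ℤ) = R at *
    field_simp
  have hG0 : G 0 = F 0 ^ (2 * N) := by simp [hG]
  have hGd : ∀ k, G k ^ 4 ≤ C ^ (2 * N) * G (2 * k) * G 0 ^ 3 := by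
    intro k
    have h1 := pow_le_pow_left₀ (pow_nonneg (hF k).le 4) (hdup k) (2 * N)
    rw [hG0]
    simp only [hG]
    have p1 : 0 < b ^ (k ^ 2) := zpow_pos hb _
    have e2 : b ^ ((2 * k) ^ 2) = (b ^ (k ^ 2)) ^ 4 := by
      rw [← zpow_natCast, ← zpow_mul]; congr 1; push_cast; ring
    rw [e2]
    have h2 : (F k ^ 4) ^ (2 * N) = (F k ^ (2 * N)) ^ 4 := by rw [← pow_mul, ← pow_mul, mul_comm]
    have h3 : (C * F (2 * k) * F 0 ^ 3) ^ (2 * N)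
        = C ^ (2 * N) * F (2 * k) ^ (2 * N) * (F 0 ^ (2 * N)) ^ 3 := by
      rw [mul_pow, mul_pow, ← pow_mul, ← pow_mul, mul_comm 3 (2 * N)]
    rw [h2, h3] at h1
    generalize b ^ (k ^ 2) = P at *
    have p4 : 0 ≤ (P ^ 4)⁻¹ := (inv_pos.mpr (pow_pos p1 4)).le
    calc (F k ^ (2 * N) * P⁻¹) ^ 4 = (F k ^ (2 * N)) ^ 4 * (P ^ 4)⁻¹ := by rw [mul_pow, inv_pow]
      _ ≤ (C ^ (2 * N) * F (2 * k) ^ (2 * N) * (F 0 ^ (2 * N)) ^ 3) * (P ^ 4)⁻¹ :=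
          mul_le_mul_of_nonneg_right h1 p4
      _ = C ^ (2 * N) * (F (2 * k) ^ (2 * N) * (P ^ 4)⁻¹) * (F 0 ^ (2 * N)) ^ 3 := by ring
  obtain ⟨m, hm, hmax⟩ := Finset.exists_max_image (Finset.range N) (fun m : ℕ => G m)
    ⟨0, by simpa using hN⟩
  have hN' : (0 : ℤ) < N := by exact_mod_cast hN
  have hle : ∀ k, G k ≤ G m := by
    intro k
    have h0 : 0 ≤ k % (N : ℤ) := Int.emod_nonneg _ hN'.ne'
    have h1 : k % (N : ℤ) < N := Int.emod_lt_of_pos _ hN'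
    have h2 : G k = G (k % (N : ℤ)) := by
      have := hGper.sub_zsmul_eq (x := k) (k / (N : ℤ))
      rw [← this]
      congr 1
      rw [Int.emod_def, smul_eq_mul, mul_comm]
    obtain ⟨j, hj⟩ := Int.eq_ofNat_of_zero_le h0
    rw [h2, hj]
    apply hmax
    rw [Finset.mem_range]
    rw [hj] at h1
    exact_mod_cast h1
  have hm3 : G m ^ 3 ≤ C ^ (2 * N) * G 0 ^ 3 := by
    have h1 := hGd m
    have h2 : C ^ (2 * N) * G (2 * m) * G 0 ^ 3 ≤ C ^ (2 * N) * G m * G 0 ^ 3 := by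
      have h3 := hle (2 * m)
      have h4 : 0 ≤ C ^ (2 * N) := (pow_pos hC _).le
      have h5 : 0 ≤ G 0 ^ 3 := (pow_pos (Gpos 0) _).le
      gcongr
    have h3 : G m * G m ^ 3 ≤ G m * (C ^ (2 * N) * G 0 ^ 3) := by
      calc G m * G m ^ 3 = G m ^ 4 := by ring
        _ ≤ C ^ (2 * N) * G m * G 0 ^ 3 := h1.trans h2
        _ = G m * (C ^ (2 * N) * G 0 ^ 3) := by ring
    exact le_of_mul_le_mul_left h3 (Gpos m)
  have hk3 : G k ^ 3 ≤ C ^ (2 * N) * G 0 ^ 3 :=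
    (pow_le_pow_left₀ (Gpos k).le (hle k) 3).trans hm3
  rw [hG0] at hk3
  simp only [hG] at hk3
  have p1 : 0 < b ^ (k ^ 2) := zpow_pos hb _
  have e3 : b ^ (3 * k ^ 2) = (b ^ (k ^ 2)) ^ 3 := by
    rw [← zpow_natCast, ← zpow_mul]; congr 1; push_cast; ring
  have e4 : F k ^ (6 * N) = (F k ^ (2 * N)) ^ 3 := by rw [← pow_mul]; congr 1; ring
  have e5 : F 0 ^ (6 * N) = (F 0 ^ (2 * N)) ^ 3 := by rw [← pow_mul]; congr 1; ring
  rw [e3, e4, e5]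
  generalize b ^ (k ^ 2) = P at *
  have h9 := mul_le_mul_of_nonneg_right hk3 (pow_pos p1 3).le
  calc (F k ^ (2 * N)) ^ 3 = (F k ^ (2 * N) * P⁻¹) ^ 3 * P ^ 3 := by
        rw [mul_pow, inv_pow, mul_assoc, inv_mul_cancel₀ (pow_pos p1 3).ne', mul_one]
    _ ≤ C ^ (2 * N) * (F 0 ^ (2 * N)) ^ 3 * P ^ 3 := h9

end Pool.Agent.THS.H41
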