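import Pool.Agent.THS.StmtsN

/-!
THS, row RED: reduction of `T`.
-/

namespace Pool.Agent.THS.H41

open scoped BigOperators

theorem red_le {K ι : Type} [Field K] [Finite ι] (v : AbsoluteValue K ℝ) (x : ι → K) (i : ι) :
    v (x i) ≤ nv v x :=
  le_ciSup (f := fun i => v (x i)) (Set.finite_range _).bddAbove i

theorem red_nonneg {K ι : Type} [Field K] (v : AbsoluteValue K ℝ) (x : ι → K) :
    0 ≤ nv v x := Real.iSup_nonneg fun _ => v.nonneg _

theorem red_pos {K ι : Type} [Field K] [Finite ι] (v : AbsoluteValue K ℝ) (x : ι → K)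
    (hx : x ≠ 0) : 0 < nv v x := by
  obtain ⟨i, hi⟩ := Function.ne_iff.mp hx
  exact (v.pos hi).trans_le (red_le v x i)

theorem red_ex {K ι : Type} [Field K] [Finite ι] [Nonempty ι] (v : AbsoluteValue K ℝ)
    (x : ι → K) : ∃ i, v (x i) = nv v x := exists_eq_ciSup_of_finite

theorem red_sup_le {K ι : Type} [Field K] [Nonempty ι] (v : AbsoluteValue K ℝ)
    (x : ι → K) (M : ℝ) (h : ∀ i, v (x i) ≤ M) : nv v x ≤ M := ciSup_le h

/-- The main computation: two relations give projective congruence. -/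
theorem red_core (h1 : PctStatement) (h2 : FoiStatement) (K : Type) [Field K]
    (v : AbsoluteValue K ℝ) (hv : IsNonarchimedean v) (hv2 : v 2 = 1) (g : ℕ)
    (S D Z : (Fin g → ZMod 2) → K) (X Y W : (Fin g → ZMod 2) × (Fin g → ZMod 2) → K)
    (lx ly l l0 : K) (hS : S ≠ 0) (hD : D ≠ 0) (hZ : Z ≠ 0) (hW : W ≠ 0)
    (hlx : lx ≠ 0) (hly : ly ≠ 0) (hl : l ≠ 0) (hl0 : l0 ≠ 0)
    (hX : ∀ i, v (X i - lx * W i) < nv v X) (hX' : v lx * nv v W = nv v X)
    (hY : ∀ i, v (Y i - ly * W i) < nv v Y) (hY' : v ly * nv v W = nv v Y)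
    (r1 : ∀ a d, S (a + d) * D d = l * ∑ b, ((sgn b (a + d) : ℤ) : K) * (X (a, b) * Y (a, b)))
    (r2 : ∀ a d, Z (a + d) * Z d = l0 * ∑ b, ((sgn b (a + d) : ℤ) : K) * (W (a, b) * W (a, b))) :
    PC v S Z := by
  have hWp : 0 < nv v W := red_pos v W hW
  have hlxp : 0 < v lx := v.pos hlx
  have hlyp : 0 < v ly := v.pos hly
  have hlp : 0 < v l := v.pos hl
  set M : ℝ := nv v X * nv v Y with hM
  have hXp : 0 < nv v X := by rw [← hX']; positivity
  have hYp : 0 < nv v Y := by rw [← hY']; positivity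
  -- difference of the products
  have hdiff : ∀ t, v (X t * Y t - lx * ly * (W t * W t)) < M := by
    intro t
    have e : X t * Y t - lx * ly * (W t * W t)
        = (X t - lx * W t) * Y t + lx * W t * (Y t - ly * W t) := by ring
    rw [e]
    refine (hv _ _).trans_lt (max_lt ?_ ?_)
    · rw [map_mul]
      calc v (X t - lx * W t) * v (Y t) ≤ v (X t - lx * W t) * nv v Y :=
            mul_le_mul_of_nonneg_left (red_le v Y t) (v.nonneg _)
        _ < nv v X * nv v Y := mul_lt_mul_of_pos_right (hX t) hYp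
    · rw [map_mul, map_mul]
      calc v lx * v (W t) * v (Y t - ly * W t) ≤ nv v X * v (Y t - ly * W t) := by
            refine mul_le_mul_of_nonneg_right ?_ (v.nonneg _)
            rw [← hX']
            exact mul_le_mul_of_nonneg_left (red_le v W t) hlxp.le
        _ < nv v X * nv v Y := mul_lt_mul_of_pos_left (hY t) hXp
  -- the maximum of the products
  have hmaxp : nv v (fun t => X t * Y t) = M := by
    apply le_antisymm
    · refine red_sup_le v _ _ fun t => ?_
      rw [map_mul]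
      exact mul_le_mul (red_le v X t) (red_le v Y t) (v.nonneg _) hXp.le
    · obtain ⟨t, ht⟩ := red_ex v W
      have e1 : v (lx * ly * (W t * W t)) = M := by
        rw [map_mul, map_mul, map_mul, ht, hM, ← hX', ← hY']; ring
      by_contra hcon
      push Not at hcon
      have e2 : v (X t * Y t) < M := (red_le v (fun t => X t * Y t) t).trans_lt hcon
      have e3 : v (lx * ly * (W t * W t)) < M := by
        have e4 : lx * ly * (W t * W t) = X t * Y t + -(X t * Y t - lx * ly * (W t * W t)) := by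
          ring
        rw [e4]
        refine (hv _ _).trans_lt (max_lt e2 ?_)
        rw [v.map_neg]
        exact hdiff t
      rw [e1] at e3
      exact lt_irrefl _ e3
  -- Fourier transforms
  have f1 := h2 K v g (fun t => X t * Y t) hv hv2
  have f2 := h2 K v g (fun t => X t * Y t - lx * ly * (W t * W t)) hv hv2
  have hd2 : nv v (fun t => X t * Y t - lx * ly * (W t * W t)) < M := by
    obtain ⟨t, ht⟩ := red_ex v (fun t => X t * Y t - lx * ly * (W t * W t))
    rw [← ht]
    exact hdiff t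
  rw [hmaxp] at f1
  -- |S| |D| = v l M
  have hSD : nv v S * nv v D = v l * M := by
    apply le_antisymm
    · obtain ⟨i, hi⟩ := red_ex v S
      obtain ⟨d, hd⟩ := red_ex v D
      have e1 := r1 (i - d) d
      rw [sub_add_cancel] at e1
      rw [← hi, ← hd, ← map_mul, e1, map_mul, ← f1]
      refine mul_le_mul_of_nonneg_left ?_ hlp.le
      have := red_le v (fun t : (Fin g → ZMod 2) × (Fin g → ZMod 2) =>
        ∑ b, ((sgn b (t.1 + t.2) : ℤ) : K) * (X (t.1, b) * Y (t.1, b))) (i - d, d)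
      simp only [sub_add_cancel] at this
      exact this
    · obtain ⟨⟨a, d⟩, ht⟩ := red_ex v (fun t : (Fin g → ZMod 2) × (Fin g → ZMod 2) =>
        ∑ b, ((sgn b (t.1 + t.2) : ℤ) : K) * (X (t.1, b) * Y (t.1, b)))
      rw [← f1, ← ht, ← map_mul]
      simp only
      rw [← r1 a d, map_mul]
      exact mul_le_mul (red_le v S _) (red_le v D _) (v.nonneg _) (red_nonneg v S)
  -- the difference
  have key : ∀ i q, v (S i * D q - (l * (lx * ly) / l0) * (Z i * Z q)) < nv v S * nv v D := by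
    intro i q
    have e1 := r1 (i - q) q
    have e2 := r2 (i - q) q
    rw [sub_add_cancel] at e1 e2
    rw [e1, e2, hSD]
    have e3 : l * ∑ b, ((sgn b i : ℤ) : K) * (X (i - q, b) * Y (i - q, b))
        - l * (lx * ly) / l0 * (l0 * ∑ b, ((sgn b i : ℤ) : K) * (W (i - q, b) * W (i - q, b)))
        = l * ∑ b, ((sgn b i : ℤ) : K) * (X (i - q, b) * Y (i - q, b)
          - lx * ly * (W (i - q, b) * W (i - q, b))) := by
      have e4 : ∑ b, ((sgn b i : ℤ) : K) * (X (i - q, b) * Y (i - q, b)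
          - lx * ly * (W (i - q, b) * W (i - q, b)))
          = ∑ b, ((sgn b i : ℤ) : K) * (X (i - q, b) * Y (i - q, b))
            - lx * ly * ∑ b, ((sgn b i : ℤ) : K) * (W (i - q, b) * W (i - q, b)) := by
        rw [Finset.mul_sum, ← Finset.sum_sub_distrib]
        refine Finset.sum_congr rfl fun b _ => ?_
        ring
      rw [e4]
      field_simp
    rw [e3, map_mul]
    refine mul_lt_mul_of_pos_left ?_ hlp
    refine lt_of_le_of_lt ?_ hd2
    rw [← f2]
    have := red_le v (fun t : (Fin g → ZMod 2) × (Fin g → ZMod 2) =>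
        ∑ b, ((sgn b (t.1 + t.2) : ℤ) : K) * (X (t.1, b) * Y (t.1, b)
          - lx * ly * (W (t.1, b) * W (t.1, b)))) (i - q, q)
    simp only [sub_add_cancel] at this
    exact this
  exact (h1 K (Fin g → ZMod 2) (Fin g → ZMod 2) v S Z D Z _ hv hS hZ hD hZ key).1

theorem red (h0 : PceStatement) (h1 : PctStatement) (h2 : FoiStatement) : RedStatement := by
  intro K _ v g N α β T x hv hv2 hS hpc k
  have hsc : ∀ i, ∃ l : K, l ≠ 0 ∧ (∀ t, v (x i t - l * x 0 t) < nv v (x i)) ∧
      v l * nv v (x 0) = nv v (x i) := by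
    intro i
    obtain ⟨ha, hb⟩ := h0 K _ v (x i) (x 0) hv (hS.x0 i) (hS.x0 0)
    obtain ⟨l, hl, hh⟩ := ha.mp (hpc i)
    exact ⟨l, hl, hh, hb l hh⟩
  obtain ⟨l0, hl0, hr0⟩ := hS.rel 0 0
  rw [add_zero, sub_zero] at hr0
  have main : ∀ i j, PC v (T (i + j)) (T 0) := by
    intro i j
    obtain ⟨l, hl, hr⟩ := hS.rel i j
    obtain ⟨lx, hlx, hx1, hx2⟩ := hsc i
    obtain ⟨ly, hly, hy1, hy2⟩ := hsc j
    exact red_core h1 h2 K v hv hv2 g (T (i + j)) (T (i - j)) (T 0) (x i) (x j) (x 0) lx ly l l0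
      (hS.T0 _) (hS.T0 _) (hS.T0 _) (hS.x0 0) hlx hly hl hl0 hx1 hx2 hy1 hy2 hr hr0
  rcases Int.even_or_odd k with ⟨m, hm⟩ | ⟨m, hm⟩
  · rw [hm]; exact main m m
  · have e : k = (m + 1) + m := by rw [hm]; ring
    rw [e]; exact main (m + 1) m

end Pool.Agent.THS.H41
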